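import Pool.Agent.H24.LVP.RES2
import Pool.Agent.H79.PL.JJ2
import Pool.Agent.H24.CLK.Res

/-!
# The critical mean value with a power of the logarithm saved: the final statement (helper65)
-/

set_option autoImplicit false

open Finset MeasureTheory

namespace Pool.Agent.H65.PLG

open Pool.Agent.H24.CL Pool.Agent.H24.LV Pool.Agent.H67.CLV Pool.Agent.H24.CLK Pool.Agent.H24.LVP

/-- the level sets between `N^(1/2)` and `N^(3/4)` and the critical mean value -/
theorem final (hPF : T_PF) (hMP : T_MP) (hJI : T_JI) (hIT : TK_IT)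
    (hFI2 : Pool.Agent.H26.ES.T_FI2) (hJJ2 : Pool.Agent.H26.ES.T_JJ2) : ∀ k : ℕ, 3 ≤ k →
    ∃ c C : ℝ, 0 < c ∧ ∀ N : ℕ, 1 ≤ N →
      (∀ t : ℝ, 0 < t →
        (volume : Measure (X k)).real {a : X k | t ≤ ‖f1 N a‖} * t ^ (k * (k + 1)) ≤
          C * (N : ℝ) ^ (k * (k + 1) / 2)) ∧
      (∀ t : ℝ, (N : ℝ) ^ (1 / 2 : ℝ) ≤ t → t ≤ (N : ℝ) ^ (3 / 4 : ℝ) →
        (volume : Measure (X k)).real {a : X k | t ≤ ‖f1 N a‖} * t ^ (k * (k + 1)) ≤
          C * (N : ℝ) ^ (k * (k + 1) / 2) *
            Real.exp (-(c * Real.log (t ^ 2 / N) ^ 3 / Real.log N ^ 2))) ∧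
      ((Pool.Agent.H22.VM.sols (k * (k + 1) / 2) k N).card : ℝ) ≤
        C * (N : ℝ) ^ (k * (k + 1) / 2) * (1 + Real.log N) ^ (2 / 3 : ℝ) := by
  intro k hk
  have hd := KN_dbl k
  have hKd : k * (k + 1) / 2 = KN k := rfl
  obtain ⟨C₁, h1⟩ := pf_WT hIT hPF hMP k hk
  obtain ⟨c, C₂, hc, hC₂, h2⟩ := Pool.Agent.H79.PL.level hFI2 k hk
  obtain ⟨C₃, h3⟩ := hJJ2 k hk
  obtain ⟨C, hC⟩ : ∃ C : ℝ, C = max (max C₁ C₂) (max C₃ (4 ^ (2 * KN k))) := ⟨_, rfl⟩
  have hC1 : C₁ ≤ C := by rw [hC]; exact (le_max_left _ _).trans (le_max_left _ _)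
  have hC2 : C₂ ≤ C := by rw [hC]; exact (le_max_right _ _).trans (le_max_left _ _)
  have hC3 : C₃ ≤ C := by rw [hC]; exact (le_max_left _ _).trans (le_max_right _ _)
  have hC4 : (4 : ℝ) ^ (2 * KN k) ≤ C := by rw [hC]; exact (le_max_right _ _).trans (le_max_right _ _)
  have hC0 : 0 ≤ C := le_trans (by positivity) hC4
  obtain ⟨D, hD⟩ : ∃ D : ℝ, D = C * Real.exp (c * Real.log 4) := ⟨_, rfl⟩
  have hCD : C ≤ D := by
    rw [hD]
    exact le_mul_of_one_le_right hC0 (Real.one_le_exp (by positivity))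
  have hD0 : 0 ≤ D := hC0.trans hCD
  refine ⟨c, D, hc, fun N hN => ⟨fun t ht => ?_, fun t ht1 ht2 => ?_, ?_⟩⟩
  · have h4 := h1 N hN t ht
    rw [hd, mul_comm] at h4
    exact h4.trans (mul_le_mul_of_nonneg_right (hC1.trans hCD) (by positivity))
  · have hN0 : (0 : ℝ) < N := by exact_mod_cast hN
    have ht0 : 0 < t := lt_of_lt_of_le (Real.rpow_pos_of_pos hN0 _) ht1
    rw [level_eq hPF hMP]
    rcases Nat.lt_or_ge N 4 with hN4 | hN4
    · have hN1 : (1 : ℝ) ≤ N := by exact_mod_cast hN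
      have hN4' : (N : ℝ) ≤ 4 := by exact_mod_cast hN4.le
      have hlogN : 0 ≤ Real.log N := Real.log_nonneg hN1
      have hlog4 : Real.log N ≤ Real.log 4 := Real.log_le_log hN0 hN4'
      have ht4 : t ≤ 4 := by
        calc t ≤ (N : ℝ) ^ (3 / 4 : ℝ) := ht2
          _ ≤ (N : ℝ) ^ (1 : ℝ) := Real.rpow_le_rpow_of_exponent_le hN1 (by norm_num)
          _ = N := Real.rpow_one _
          _ ≤ 4 := hN4'
      have hvol1 : (volume : Measure (X k)).real {a : X k | t ≤ ‖f N a‖} ≤ 1 := by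
        have := measureReal_mono (μ := (volume : Measure (X k)))
          (Set.subset_univ {a : X k | t ≤ ‖f N a‖})
        rwa [vol_univ] at this
      have h5 : (volume : Measure (X k)).real {a : X k | t ≤ ‖f N a‖} * t ^ (k * (k + 1)) ≤
          C := by
        rw [← hd]
        calc (volume : Measure (X k)).real {a : X k | t ≤ ‖f N a‖} * t ^ (2 * KN k)
            ≤ 1 * 4 ^ (2 * KN k) := mul_le_mul hvol1 (pow_le_pow_left₀ ht0.le ht4 _)
              (by positivity) (by norm_num)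
          _ ≤ C := by rw [one_mul]; exact hC4
      have h6 : c * Real.log (t ^ 2 / N) ^ 3 / Real.log N ^ 2 ≤ c * Real.log 4 := by
        rcases hlogN.eq_or_lt with h0 | h0
        · rw [← h0]
          have : 0 ≤ Real.log 4 := Real.log_nonneg (by norm_num)
          simpa using mul_nonneg hc.le this
        · have hx0 : 0 ≤ Real.log (t ^ 2 / N) := by
            apply Real.log_nonneg
            rw [one_le_div hN0]
            calc (N : ℝ) = ((N : ℝ) ^ (1 / 2 : ℝ)) ^ 2 := by
                  rw [← Real.rpow_natCast, ← Real.rpow_mul hN0.le]; norm_num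
              _ ≤ t ^ 2 := pow_le_pow_left₀ (by positivity) ht1 2
          have hx1 : Real.log (t ^ 2 / N) ≤ Real.log N := by
            apply Real.log_le_log (by positivity)
            rw [div_le_iff₀ hN0]
            calc t ^ 2 ≤ ((N : ℝ) ^ (3 / 4 : ℝ)) ^ 2 := pow_le_pow_left₀ ht0.le ht2 2
              _ = (N : ℝ) ^ (3 / 2 : ℝ) := by
                  rw [← Real.rpow_natCast, ← Real.rpow_mul hN0.le]; norm_num
              _ ≤ (N : ℝ) ^ (2 : ℝ) := Real.rpow_le_rpow_of_exponent_le hN1 (by norm_num)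
              _ = N * N := by rw [Real.rpow_two, sq]
          rw [div_le_iff₀ (by positivity)]
          calc c * Real.log (t ^ 2 / N) ^ 3 ≤ c * Real.log N ^ 3 :=
                mul_le_mul_of_nonneg_left (pow_le_pow_left₀ hx0 hx1 3) hc.le
            _ = c * Real.log N * Real.log N ^ 2 := by ring
            _ ≤ c * Real.log 4 * Real.log N ^ 2 := by
                apply mul_le_mul_of_nonneg_right _ (by positivity)
                exact mul_le_mul_of_nonneg_left hlog4 hc.le
      have h7 : C ≤ D * Real.exp (-(c * Real.log (t ^ 2 / N) ^ 3 / Real.log N ^ 2)) := by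
        calc C = D * Real.exp (-(c * Real.log 4)) := by
              rw [hD, mul_assoc, ← Real.exp_add]; simp
          _ ≤ _ := mul_le_mul_of_nonneg_left (Real.exp_le_exp.mpr (by linarith)) hD0
      calc (volume : Measure (X k)).real {a : X k | t ≤ ‖f N a‖} * t ^ (k * (k + 1)) ≤ C := h5
        _ ≤ D * Real.exp (-(c * Real.log (t ^ 2 / N) ^ 3 / Real.log N ^ 2)) := h7
        _ ≤ D * (N : ℝ) ^ (k * (k + 1) / 2) *
            Real.exp (-(c * Real.log (t ^ 2 / N) ^ 3 / Real.log N ^ 2)) := by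
              apply mul_le_mul_of_nonneg_right _ (Real.exp_pos _).le
              exact le_mul_of_one_le_right hD0 (one_le_pow₀ hN1)
    · have h4 := h2 N t hN4 ht1 ht2
      rw [hd] at h4
      refine h4.trans ?_
      rw [hKd]
      exact mul_le_mul_of_nonneg_right
        (mul_le_mul_of_nonneg_right (hC2.trans hCD) (by positivity)) (Real.exp_pos _).le
  · have hN0 : (0 : ℝ) < N := by exact_mod_cast hN
    have h4 := h3 N hN
    rw [hKd, hJI (KN k) k N (by omega) hN]
    refine h4.trans ?_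
    exact mul_le_mul_of_nonneg_right
      (mul_le_mul_of_nonneg_right (hC3.trans hCD) (by positivity)) (by
        have : 0 ≤ Real.log N := Real.log_nonneg (by exact_mod_cast hN)
        positivity)

end Pool.Agent.H65.PLG
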