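import Pool.Agent.H65.PLG.Fin
import Pool.Agent.H79.PL.AS2

/-!
# The critical mean value with a power of the logarithm saved: the final statement with the moments
over the level sets (helper65)
-/

set_option autoImplicit false

open Finset MeasureTheory

namespace Pool.Agent.H65.PLG

open Pool.Agent.H24.CL Pool.Agent.H24.LV Pool.Agent.H67.CLV Pool.Agent.H24.CLK Pool.Agent.H24.LVP

/-- the critical mean value, the level sets and the moments over them -/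
theorem final2 (hPF : T_PF) (hMP : T_MP) (hJI : T_JI) (hIT : TK_IT)
    (hFI2 : Pool.Agent.H26.ES.T_FI2) (hJJ2 : Pool.Agent.H26.ES.T_JJ2)
    (hAS2 : Pool.Agent.H79.PL.T_AS2) (hAS : M_AS) : ∀ k : ℕ, 3 ≤ k →
    Summable (fun q : ℕ => st k (q + 1)) ∧
    Integrable (fun γ : Fin k → ℝ => ‖vI γ‖ ^ (k * (k + 1))) ∧
    ∃ c C : ℝ, 0 < c ∧ ∀ N : ℕ, 1 ≤ N →
      ((Pool.Agent.H22.VM.sols (k * (k + 1) / 2) k N).card : ℝ) ≤
        C * (N : ℝ) ^ (k * (k + 1) / 2) * (1 + Real.log N) ^ (2 / 3 : ℝ) ∧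
      ∀ t : ℝ, (N : ℝ) ^ (1 / 2 : ℝ) ≤ t → t ≤ (N : ℝ) ^ (3 / 4 : ℝ) →
        (volume : Measure (X k)).real {a : X k | t ≤ ‖f1 N a‖} * t ^ (k * (k + 1)) ≤
          C * (N : ℝ) ^ (k * (k + 1) / 2) *
            Real.exp (-(c * Real.log (t ^ 2 / N) ^ 3 / Real.log N ^ 2)) ∧
        |(∫ a in {a : X k | t ≤ ‖f1 N a‖}, ‖f1 N a‖ ^ (k * (k + 1))) -
          (∑' q : ℕ, st k (q + 1)) * (∫ γ : Fin k → ℝ, ‖vI γ‖ ^ (k * (k + 1))) *
            (N : ℝ) ^ (k * (k + 1) / 2)| ≤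
          C * (N : ℝ) ^ (k * (k + 1) / 2) * ((1 + Real.log N) ^ (2 / 3 : ℝ) *
            Real.exp (-(c * Real.log (t ^ 2 / N) ^ 3 / Real.log N ^ 2))) := by
  intro k hk
  have hd := KN_dbl k
  have hKd : k * (k + 1) / 2 = KN k := rfl
  obtain ⟨c₁, C₁, hc₁, h1⟩ := final hPF hMP hJI hIT hFI2 hJJ2 k hk
  obtain ⟨c₂, C₂, hc₂, h2⟩ := hAS2 k hk
  obtain ⟨hs, hi, -⟩ := hAS k hk
  rw [hd] at hi
  obtain ⟨C, hC⟩ : ∃ C : ℝ, C = max (max C₁ C₂) 0 := ⟨_, rfl⟩
  have hC1 : C₁ ≤ C := by rw [hC]; exact (le_max_left _ _).trans (le_max_left _ _)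
  have hC2 : C₂ ≤ C := by rw [hC]; exact (le_max_right _ _).trans (le_max_left _ _)
  have hC0 : 0 ≤ C := by rw [hC]; exact le_max_right _ _
  refine ⟨hs, hi, min c₁ c₂, C, lt_min hc₁ hc₂, fun N hN => ?_⟩
  obtain ⟨-, h3, h4⟩ := h1 N hN
  have hN0 : (0 : ℝ) < N := by exact_mod_cast hN
  have hN1 : (1 : ℝ) ≤ N := by exact_mod_cast hN
  have hlogN : 0 ≤ Real.log N := Real.log_nonneg hN1
  refine ⟨?_, fun t ht1 ht2 => ?_⟩
  · refine h4.trans ?_
    exact mul_le_mul_of_nonneg_right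
      (mul_le_mul_of_nonneg_right hC1 (by positivity)) (by positivity)
  · have hx0 : 0 ≤ Real.log (t ^ 2 / N) := by
      apply Real.log_nonneg
      rw [one_le_div hN0]
      calc (N : ℝ) = ((N : ℝ) ^ (1 / 2 : ℝ)) ^ 2 := by
            rw [← Real.rpow_natCast, ← Real.rpow_mul hN0.le]; norm_num
        _ ≤ t ^ 2 := pow_le_pow_left₀ (by positivity) ht1 2
    have hexp : ∀ c : ℝ, min c₁ c₂ ≤ c →
        Real.exp (-(c * Real.log (t ^ 2 / N) ^ 3 / Real.log N ^ 2)) ≤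
          Real.exp (-(min c₁ c₂ * Real.log (t ^ 2 / N) ^ 3 / Real.log N ^ 2)) := by
      intro c hc
      apply Real.exp_le_exp.mpr
      apply neg_le_neg
      apply div_le_div_of_nonneg_right _ (by positivity)
      exact mul_le_mul_of_nonneg_right hc (by positivity)
    refine ⟨?_, ?_⟩
    · refine (h3 t ht1 ht2).trans ?_
      calc C₁ * (N : ℝ) ^ (k * (k + 1) / 2) *
            Real.exp (-(c₁ * Real.log (t ^ 2 / N) ^ 3 / Real.log N ^ 2))
          ≤ C * (N : ℝ) ^ (k * (k + 1) / 2) *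
            Real.exp (-(c₁ * Real.log (t ^ 2 / N) ^ 3 / Real.log N ^ 2)) :=
            mul_le_mul_of_nonneg_right
              (mul_le_mul_of_nonneg_right hC1 (by positivity)) (Real.exp_pos _).le
        _ ≤ _ := mul_le_mul_of_nonneg_left (hexp c₁ (min_le_left _ _)) (by positivity)
    · rw [level_int hPF hMP]
      have h5 := h2 N t hN ht1 ht2
      rw [hd] at h5
      rw [hKd]
      have h7 : (N : ℝ) ^ KN k * ((∑' q : ℕ, st k (q + 1)) *
          ∫ γ : Fin k → ℝ, ‖vI γ‖ ^ (k * (k + 1))) =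
          (∑' q : ℕ, st k (q + 1)) * (∫ γ : Fin k → ℝ, ‖vI γ‖ ^ (k * (k + 1))) *
            (N : ℝ) ^ KN k := by ring
      rw [h7] at h5
      refine h5.trans ?_
      have h8 : 0 ≤ (1 + Real.log N) ^ (2 / 3 : ℝ) := by positivity
      calc C₂ * (N : ℝ) ^ KN k * ((1 + Real.log N) ^ (2 / 3 : ℝ) *
            Real.exp (-(c₂ * Real.log (t ^ 2 / N) ^ 3 / Real.log N ^ 2)))
          ≤ C * (N : ℝ) ^ KN k * ((1 + Real.log N) ^ (2 / 3 : ℝ) *
            Real.exp (-(c₂ * Real.log (t ^ 2 / N) ^ 3 / Real.log N ^ 2))) :=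
            mul_le_mul_of_nonneg_right
              (mul_le_mul_of_nonneg_right hC2 (by positivity)) (by positivity)
        _ ≤ _ := mul_le_mul_of_nonneg_left
            (mul_le_mul_of_nonneg_left (hexp c₂ (min_le_right _ _)) h8) (by positivity)

end Pool.Agent.H65.PLG
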